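import Pool.Agent.Helper50.SB.Jac

/-!
SB2, SB3 with natural numbers: the valuation of a Jacobi sum is the number of `i < f` such that `p ^ i * t * a` and
`p ^ i * t * b` have NO carry modulo `m` (replace `t` by `-t`).
-/

set_option autoImplicit false

namespace Pool.Agent.Helper50.SB

open Finset

/-- The number of `i < f` such that `p ^ i * t * a` and `p ^ i * t * b` have no carry modulo `m`. -/
def nocarry (m p f t a b : ℕ) : ℕ :=
  ∑ i ∈ range f, if (p ^ i * t) * a % m + (p ^ i * t) * b % m < m then 1 else 0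

theorem val_neg_mul {m : ℕ} [NeZero m] (p : ℕ) (i : ℕ) (t : ZMod m) (a : ℕ) :
    ((p : ZMod m) ^ i * (-t) * (a : ZMod m)).val = (p ^ i * (-t).val) * a % m := by
  have h1 : (p : ZMod m) ^ i * (-t) * (a : ZMod m) = (((p ^ i * (-t).val) * a : ℕ) : ZMod m) := by
    push_cast
    rw [ZMod.natCast_val, ZMod.cast_id]
  rw [h1, ZMod.val_natCast]

theorem carry_nocarry {m p f : ℕ} [NeZero m] (hp : IsUnit (p : ZMod m)) (t : (ZMod m)ˣ) {a b : ℕ} (ha : (a : ZMod m) ≠ 0)
    (hb : (b : ZMod m) ≠ 0) (hab : ((a : ZMod m) + b) ≠ 0) :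
    carry p f (t : ZMod m) (a : ZMod m) (b : ZMod m) = nocarry m p f (-(t : ZMod m)).val a b := by
  unfold carry nocarry
  rw [card_filter]
  refine sum_congr rfl fun i _ => ?_
  rw [← val_neg_mul, ← val_neg_mul]
  have hu : IsUnit ((p : ZMod m) ^ i * (t : ZMod m)) := (hp.pow i).mul t.isUnit
  obtain ⟨X, hX⟩ : ∃ X, X = (p : ZMod m) ^ i * (t : ZMod m) * (a : ZMod m) := ⟨_, rfl⟩
  obtain ⟨Y, hY⟩ : ∃ Y, Y = (p : ZMod m) ^ i * (t : ZMod m) * (b : ZMod m) := ⟨_, rfl⟩
  have hX0 : X ≠ 0 := by rw [hX]; exact fun h => ha ((IsUnit.mul_right_eq_zero hu).1 h)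
  have hY0 : Y ≠ 0 := by rw [hY]; exact fun h => hb ((IsUnit.mul_right_eq_zero hu).1 h)
  have hXY : X + Y ≠ 0 := by
    rw [hX, hY, ← mul_add]
    exact fun h => hab ((IsUnit.mul_right_eq_zero hu).1 h)
  have e1 : (p : ZMod m) ^ i * (-(t : ZMod m)) * (a : ZMod m) = -X := by rw [hX]; ring
  have e2 : (p : ZMod m) ^ i * (-(t : ZMod m)) * (b : ZMod m) = -Y := by rw [hY]; ring
  rw [e1, e2, ← hX, ← hY]
  haveI : NeZero X := ⟨hX0⟩
  haveI : NeZero Y := ⟨hY0⟩
  have h1 := ZMod.val_neg_of_ne_zero X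
  have h2 := ZMod.val_neg_of_ne_zero Y
  have h3 := ZMod.val_lt X
  have h4 := ZMod.val_lt Y
  have h5 : X.val + Y.val ≠ m := by
    intro h
    apply hXY
    have h6 : ((X.val + Y.val : ℕ) : ZMod m) = 0 := by rw [h, ZMod.natCast_self]
    push_cast at h6
    rwa [ZMod.natCast_val, ZMod.natCast_val, ZMod.cast_id, ZMod.cast_id] at h6
  have h6 : m ≤ X.val + Y.val ↔ (-X).val + (-Y).val < m := by
    rw [h1, h2]
    omega
  simp only [h6]

/-- The valuations of the Jacobi sums of the powers of a character `χ` of order `m` of a field with `p ^ f` elements. -/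
theorem exists_twist_nat {Γ : Type*} [LinearOrderedCommGroupWithZero Γ] {v : Valuation ℂ Γ}
    (hv : ∀ x : ℂ, IsIntegral ℤ x → v x ≤ 1) {p : ℕ} [hp : Fact p.Prime] (hp1 : v (p : ℂ) < 1)
    {F : Type} [Field F] [Fintype F] {f : ℕ} (hF : Fintype.card F = p ^ f) {m : ℕ} [NeZero m]
    {χ : MulChar F ℂ} (hχ : orderOf χ = m) :
    ∃ t : ℕ, t.Coprime m ∧ ∀ a b : ℕ, 0 < a → a < m → 0 < b → b < m → a + b ≠ m →
      v (jacobiSum (χ ^ a) (χ ^ b)) = v (p : ℂ) ^ nocarry m p f t a b := by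
  obtain ⟨t, ht⟩ := exists_twist hv hp1 hF hχ
  have hm0 : 0 < m := Nat.pos_of_ne_zero (NeZero.ne m)
  have hu : IsUnit (p : ZMod m) := by
    -- `m` divides `p ^ f - 1`
    have h1 : m ∣ Fintype.card F - 1 := by
      classical
      rw [← hχ]
      apply orderOf_dvd_of_pow_eq_one
      have h2 := MulChar.pow_card_eq_one χ
      rwa [Fintype.card_units] at h2
    have hf : f ≠ 0 := by
      rintro rfl
      rw [pow_zero] at hF
      have := Fintype.one_lt_card (α := F)
      omega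
    have h2 : ((p ^ f : ℕ) : ZMod m) = 1 := by
      have h3 : p ^ f = Fintype.card F - 1 + 1 := by
        have := Fintype.one_lt_card (α := F)
        omega
      rw [h3, Nat.cast_add, (ZMod.natCast_eq_zero_iff _ _).2 h1, zero_add, Nat.cast_one]
    rw [Nat.cast_pow] at h2
    exact IsUnit.of_pow_eq_one h2 hf
  refine ⟨(-(t : ZMod m)).val, ?_, ?_⟩
  · have h1 : (-(t : ZMod m)) = ((-t : (ZMod m)ˣ) : ZMod m) := by simp
    rw [h1]
    exact ZMod.val_coe_unit_coprime _
  · intro a b ha ha' hb hb' hab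
    have h1 : (a : ZMod m) ≠ 0 := by
      intro h
      rw [ZMod.natCast_eq_zero_iff] at h
      exact absurd (Nat.le_of_dvd ha h) (by omega)
    have h2 : (b : ZMod m) ≠ 0 := by
      intro h
      rw [ZMod.natCast_eq_zero_iff] at h
      exact absurd (Nat.le_of_dvd hb h) (by omega)
    have h3 : (a : ZMod m) + b ≠ 0 := by
      intro h
      have h4 : ((a + b : ℕ) : ZMod m) = 0 := by push_cast; exact h
      rw [ZMod.natCast_eq_zero_iff] at h4
      obtain ⟨c, hc⟩ := h4
      have h5 : c < 2 := by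
        by_contra h6
        have : m * 2 ≤ m * c := Nat.mul_le_mul_left _ (by omega)
        omega
      interval_cases c <;> omega
    have h4 := ht a b h1 h2 h3
    rw [ZMod.val_natCast, ZMod.val_natCast, Nat.mod_eq_of_lt ha', Nat.mod_eq_of_lt hb'] at h4
    rw [h4, carry_nocarry hu t h1 h2 h3]

end Pool.Agent.Helper50.SB
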