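import Pool.Agent.Helper40.QC.Stick

/-!
SB1. The digit sum of `k * (p ^ f - 1) / m` in base `p` for `k < m`, as a sum of the residues of `p ^ i * k` modulo `m`.
-/

set_option autoImplicit false

namespace Pool.Agent.Helper50.SB

open Finset Pool.Agent.Helper40.QC

/-- The number with the base `p` digits `d (i - 1), .., d 0` (lowest digit last chosen). -/
def num (p : ℕ) (d : ℕ → ℕ) : ℕ → ℕ
  | 0 => 0
  | i + 1 => p * num p d i + d i

theorem digits_num {p : ℕ} (hp : 1 < p) {d : ℕ → ℕ} (hd : ∀ i, d i < p) (i : ℕ) :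
    (Nat.digits p (num p d i)).sum = ∑ j ∈ range i, d j := by
  induction i with
  | zero => simp [num]
  | succ i ih =>
    have h1 : num p d (i + 1) = p * num p d i + d i := rfl
    rw [h1, digit_rec hp, Nat.mul_add_mod, Nat.mod_eq_of_lt (hd i),
      Nat.mul_add_div (by omega : 0 < p), Nat.div_eq_of_lt (hd i), add_zero, ih, sum_range_succ]
    ring

/-- The digit sum of `k * N` where `m * N = p ^ f - 1` and `k < m`. -/
theorem digits_sum {p f m N k : ℕ} (hp : 1 < p) (hm : m * N + 1 = p ^ f) (hk : k < m) :
    m * (Nat.digits p (k * N)).sum = (p - 1) * ∑ i ∈ range f, p ^ i * k % m := by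
  have hm0 : 0 < m := by omega
  set r : ℕ → ℕ := fun i => p ^ i * k % m with hr
  set d : ℕ → ℕ := fun i => p * r i / m with hd
  have hrm : ∀ i, r i < m := fun i => Nat.mod_lt _ hm0
  have hdp : ∀ i, d i < p := by
    intro i
    rw [hd]
    simp only
    rw [Nat.div_lt_iff_lt_mul hm0]
    exact Nat.mul_lt_mul_of_pos_left (hrm i) (by omega)
  have hrec : ∀ i, p * r i = r (i + 1) + m * d i := by
    intro i
    have h1 : r (i + 1) = p * r i % m := by
      simp only [hr]
      rw [pow_succ', mul_assoc, Nat.mul_mod p (p ^ i * k % m) m, Nat.mod_mod, ← Nat.mul_mod]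
    rw [h1]
    exact (Nat.mod_add_div (p * r i) m).symm
  have hr0 : r 0 = k := by
    simp only [hr]
    rw [pow_zero, one_mul, Nat.mod_eq_of_lt hk]
  have hrf : r f = k := by
    simp only [hr]
    rw [← hm]
    have h1 : (m * N + 1) * k = k + m * (N * k) := by ring
    rw [h1, Nat.add_mul_mod_self_left, Nat.mod_eq_of_lt hk]
  -- the digits
  have hnum : ∀ i, p ^ i * (k * N) = r i * N + num p d i * (m * N) := by
    intro i
    induction i with
    | zero => rw [hr0]; simp [num]
    | succ i ih =>
      have h1 : num p d (i + 1) = p * num p d i + d i := rfl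
      have h2 := hrec i
      calc p ^ (i + 1) * (k * N) = p * (p ^ i * (k * N)) := by rw [pow_succ']; ring
        _ = (p * r i) * N + p * num p d i * (m * N) := by rw [ih]; ring
        _ = _ := by rw [h2, h1]; ring
  have hkN : k * N = num p d f := by
    have h1 := hnum f
    rw [hrf, ← hm] at h1
    have h2 : (k * N) * (m * N) = num p d f * (m * N) := by
      have h3 : (m * N + 1) * (k * N) = k * N + (k * N) * (m * N) := by ring
      rw [h3] at h1
      exact Nat.add_left_cancel h1
    rcases Nat.eq_zero_or_pos (m * N) with h3 | h3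
    · have hN : N = 0 := by
        rcases Nat.mul_eq_zero.1 h3 with h | h
        · omega
        · exact h
      have hf : f = 0 := by
        by_contra hf
        have h4 : 1 < p ^ f := Nat.one_lt_pow hf hp
        omega
      rw [hN, hf]
      simp [num]
    · exact Nat.eq_of_mul_eq_mul_right h3 h2
  rw [hkN, digits_num hp hdp]
  have hs : p * ∑ i ∈ range f, r i = ∑ i ∈ range f, r i + m * ∑ i ∈ range f, d i := by
    rw [mul_sum, sum_congr rfl fun i _ => hrec i, sum_add_distrib, ← mul_sum]
    congr 1
    have h1 := sum_range_succ r f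
    rw [sum_range_succ', hr0, hrf] at h1
    exact Nat.add_right_cancel h1
  obtain ⟨p', rfl⟩ : ∃ p', p = p' + 1 := ⟨p - 1, by omega⟩
  rw [Nat.add_sub_cancel]
  have h1 : (p' + 1) * ∑ i ∈ range f, r i = p' * ∑ i ∈ range f, r i + ∑ i ∈ range f, r i := by ring
  rw [h1, add_comm] at hs
  exact (Nat.add_left_cancel hs).symm

/-- The number of carries. -/
def carries (p f m a b : ℕ) : ℕ :=
  ((range f).filter fun i => m ≤ p ^ i * a % m + p ^ i * b % m).card

theorem sum_carry {m : ℕ} (hm0 : 0 < m) (x y : ℕ) :
    x % m + y % m = (x + y) % m + m * (if m ≤ x % m + y % m then 1 else 0) := by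
  have hx := Nat.mod_lt x hm0
  have hy := Nat.mod_lt y hm0
  split_ifs with h
  · have h1 : (x + y) % m = x % m + y % m - m := by
      rw [Nat.add_mod, Nat.mod_eq_sub_mod h, Nat.mod_eq_of_lt (by omega)]
    rw [h1]
    omega
  · have h1 : (x + y) % m = x % m + y % m := by
      rw [Nat.add_mod]
      exact Nat.mod_eq_of_lt (by omega)
    rw [h1]
    ring

/-- The digit sums and the number of carries. -/
theorem digits_add {p f m N a b : ℕ} (hp : 1 < p) (hm : m * N + 1 = p ^ f) (ha : a < m) (hb : b < m) :
    (Nat.digits p (a * N)).sum + (Nat.digits p (b * N)).sum =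
      (Nat.digits p ((a + b) % m * N)).sum + (p - 1) * carries p f m a b := by
  have hm0 : 0 < m := by omega
  apply Nat.eq_of_mul_eq_mul_left hm0
  rw [mul_add, mul_add, digits_sum hp hm ha, digits_sum hp hm hb, digits_sum hp hm (Nat.mod_lt _ hm0)]
  have h1 : ∀ i ∈ range f, p ^ i * a % m + p ^ i * b % m =
      p ^ i * ((a + b) % m) % m + m * (if m ≤ p ^ i * a % m + p ^ i * b % m then 1 else 0) := by
    intro i _
    have h2 := sum_carry hm0 (p ^ i * a) (p ^ i * b)
    have h3 : p ^ i * ((a + b) % m) % m = (p ^ i * a + p ^ i * b) % m := by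
      rw [Nat.mul_mod, Nat.mod_mod, ← Nat.mul_mod, mul_add]
    rw [h3]
    exact h2
  rw [← mul_add, ← sum_add_distrib, sum_congr rfl h1, sum_add_distrib, ← mul_sum, sum_boole, carries]
  simp only [Nat.cast_id]
  ring

end Pool.Agent.Helper50.SB
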