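import Pool.Agent.Helper50.SB.Dig
import Pool.Agent.Helper75.Zss.Pw
import Pool.Agent.Helper75.Zss.Jac

/-!
SB2, SB3. The valuation of a Jacobi sum of characters of order `m` of a field with `p ^ f` elements is the number of carries.
-/

set_option autoImplicit false

namespace Pool.Agent.Helper50.SB

open Finset Pool.Agent.Helper40.QC Pool.Agent.Helper73.KT Pool.Agent.Helper75.Zss

/-- The number of `i < f` such that `p ^ i * t * x` and `p ^ i * t * y` have a carry modulo `m`. -/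
def carry {m : ℕ} (p f : ℕ) (t x y : ZMod m) : ℕ :=
  ((range f).filter fun i => m ≤ ((p : ZMod m) ^ i * t * x).val + ((p : ZMod m) ^ i * t * y).val).card

theorem val_pow_mul {m : ℕ} [NeZero m] (p i : ℕ) (z : ZMod m) :
    ((p : ZMod m) ^ i * z).val = p ^ i * z.val % m := by
  have h1 : (p : ZMod m) ^ i * z = ((p ^ i * z.val : ℕ) : ZMod m) := by
    push_cast
    rw [ZMod.natCast_val, ZMod.cast_id]
  rw [h1, ZMod.val_natCast]

theorem carry_eq {m : ℕ} [NeZero m] (p f : ℕ) (t x y : ZMod m) :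
    carry p f t x y = carries p f m (t * x).val (t * y).val := by
  unfold carry carries
  congr 1
  refine filter_congr fun i _ => ?_
  rw [mul_assoc, mul_assoc, val_pow_mul, val_pow_mul]

/-- The prime ideal of the algebraic integers with valuation less than one. -/
def idl {Γ : Type*} [LinearOrderedCommGroupWithZero Γ] (v : Valuation ℂ Γ)
    (hv : ∀ x : ℂ, IsIntegral ℤ x → v x ≤ 1) : Ideal Alg where
  carrier := {x | v (x : ℂ) < 1}
  add_mem' := by
    intro a b ha hb
    show v ((a + b : Alg) : ℂ) < 1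
    push_cast
    exact lt_of_le_of_lt (v.map_add _ _) (max_lt ha hb)
  zero_mem' := by
    show v ((0 : Alg) : ℂ) < 1
    push_cast
    rw [map_zero]
    exact zero_lt_one
  smul_mem' := by
    intro c x hx
    show v ((c * x : Alg) : ℂ) < 1
    push_cast
    rw [map_mul]
    calc v (c : ℂ) * v (x : ℂ) ≤ 1 * v (x : ℂ) := mul_le_mul_left (hv _ c.2) _
      _ = v (x : ℂ) := one_mul _
      _ < 1 := hx

section main

variable {Γ : Type*} [LinearOrderedCommGroupWithZero Γ] {v : Valuation ℂ Γ}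

theorem mem_idl {hv : ∀ x : ℂ, IsIntegral ℤ x → v x ≤ 1} {x : Alg} : x ∈ idl v hv ↔ v (x : ℂ) < 1 := Iff.rfl

theorem idl_maximal (hv : ∀ x : ℂ, IsIntegral ℤ x → v x ≤ 1) {p : ℕ} [hp : Fact p.Prime] (hp1 : v (p : ℂ) < 1) :
    (idl v hv).IsMaximal := by
  have h0 : (idl v hv).IsPrime := by
    constructor
    · intro h
      have h1 := (Ideal.eq_top_iff_one _).1 h
      rw [mem_idl] at h1
      push_cast at h1
      rw [map_one] at h1
      exact lt_irrefl _ h1
    · intro a b hab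
      rw [mem_idl] at hab
      push_cast at hab
      rw [map_mul] at hab
      by_contra hcon
      push Not at hcon
      obtain ⟨ha, hb⟩ := hcon
      rw [mem_idl, not_lt] at ha hb
      have ha1 := le_antisymm (hv _ a.2) ha
      have hb1 := le_antisymm (hv _ b.2) hb
      rw [ha1, hb1, mul_one] at hab
      exact lt_irrefl _ hab
  apply Ideal.isMaximal_of_isIntegral_of_isMaximal_comap (R := ℤ)
  have h2 : Ideal.span {(p : ℤ)} ≤ Ideal.comap (algebraMap ℤ Alg) (idl v hv) := by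
    rw [Ideal.span_singleton_le_iff_mem, Ideal.mem_comap, mem_idl]
    simpa using hp1
  have h3 : (Ideal.span {(p : ℤ)}).IsMaximal :=
    PrincipalIdealRing.isMaximal_of_irreducible (Nat.prime_iff_prime_int.1 hp.out).irreducible
  have h4 : Ideal.comap (algebraMap ℤ Alg) (idl v hv) ≠ ⊤ := Ideal.comap_ne_top _ h0.ne_top
  rw [← h3.eq_of_le h4 h2]
  exact h3

/-- The valuations of the Jacobi sums of the powers of a character `χ` of order `m` of a field with `p ^ f` elements:
for every valuation over `p` there is `t` prime to `m` such that the valuation of `J (χ ^ x, χ ^ y)` is the number of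
`i < f` such that `p ^ i * t * x` and `p ^ i * t * y` have a carry. -/
theorem exists_twist (hv : ∀ x : ℂ, IsIntegral ℤ x → v x ≤ 1) {p : ℕ} [hp : Fact p.Prime] (hp1 : v (p : ℂ) < 1)
    {F : Type} [Field F] [Fintype F] {f : ℕ} (hF : Fintype.card F = p ^ f) {m : ℕ} [NeZero m]
    {χ : MulChar F ℂ} (hχ : orderOf χ = m) :
    ∃ t : (ZMod m)ˣ, ∀ x y : ZMod m, x ≠ 0 → y ≠ 0 → x + y ≠ 0 →
      v (jacobiSum (χ ^ x.val) (χ ^ y.val)) = v (p : ℂ) ^ carry p f t x y := by
  classical
  have hpp : p.Prime := hp.out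
  have hm0 : 0 < m := Nat.pos_of_ne_zero (NeZero.ne m)
  have hf : f ≠ 0 := by
    rintro rfl
    rw [pow_zero] at hF
    have := Fintype.one_lt_card (α := F)
    omega
  haveI : CharP F p := by
    obtain ⟨r, hr⟩ := CharP.exists F
    have hrp := CharP.char_is_prime F r
    obtain ⟨n, -, hn⟩ := FiniteField.card F r
    have h1 : p ∣ r ^ (n : ℕ) := by rw [← hn, hF]; exact dvd_pow_self p hf
    have h2 := hpp.dvd_of_dvd_pow h1
    rw [(Nat.prime_dvd_prime_iff_eq hpp hrp).1 h2]
    exact hr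
  set 𝔓 := idl v hv with h𝔓
  have hmax : 𝔓.IsMaximal := idl_maximal hv hp1
  have hp𝔓 : (p : Alg) ∈ 𝔓 := by
    rw [h𝔓, mem_idl]
    simpa using hp1
  letI := Ideal.Quotient.field 𝔓
  obtain ⟨ι⟩ := exists_hom (F := F) hmax hp𝔓
  obtain ⟨ω, hω⟩ := exists_teich hmax ι
  let φ : Alg →+* Alg ⧸ 𝔓 := Ideal.Quotient.mk 𝔓
  let τ : MulChar F ℂ := ω.ringHomComp (algebraMap Alg ℂ)
  have hτ : ∀ t : Fˣ, res φ (τ t) = ι t := by
    intro t
    have h1 : τ t = ((ω t : Alg) : ℂ) := rfl
    rw [h1, res_coe]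
    exact hω t
  have hv2 : ∀ x : Alg, v (x : ℂ) = 1 ↔ φ x ≠ 0 := by
    intro x
    rw [Ne, Ideal.Quotient.eq_zero_iff_mem, h𝔓, mem_idl, not_lt]
    exact ⟨fun h => h.ge, fun h => le_antisymm (hv _ x.2) h⟩
  obtain ⟨ψ, hψ⟩ := exists_addChar F
  have hprim : ψ.IsPrimitive := AddChar.IsPrimitive.of_ne_one hψ
  obtain ⟨w, hw, hst⟩ := stickelberger φ ι τ v hF hτ hv2 ψ hprim
  have hord := order_tau φ ι τ hτ
  -- `χ` is a power of `τ⁻¹`
  obtain ⟨s, hs⟩ : ∃ s : ℕ, τ⁻¹ ^ s = χ := by
    have h1 : Nat.card (Subgroup.zpowers (τ⁻¹ : MulChar F ℂ)) = Nat.card (MulChar F ℂ) := by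
      rw [Nat.card_zpowers, hord, MulChar.card_eq_card_units_of_hasEnoughRootsOfUnity, Nat.card_eq_fintype_card,
        Fintype.card_units]
    have h2 := Subgroup.eq_top_of_card_eq _ h1
    have h3 : χ ∈ Subgroup.zpowers (τ⁻¹ : MulChar F ℂ) := by
      rw [h2]
      exact Subgroup.mem_top _
    rw [← mem_powers_iff_mem_zpowers] at h3
    exact h3
  have hq1 : 0 < Fintype.card F - 1 := by
    have := Fintype.one_lt_card (α := F)
    omega
  -- `s = N * t`
  obtain ⟨N, hN⟩ : m ∣ Fintype.card F - 1 := by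
    rw [← hord, ← hχ, ← hs]
    exact orderOf_pow_dvd s
  have hN0 : 0 < N := by
    rcases Nat.eq_zero_or_pos N with h | h
    · rw [h, mul_zero] at hN
      omega
    · exact h
  have hgcd : (Fintype.card F - 1).gcd s = N := by
    have h1 : orderOf (τ⁻¹ ^ s) = m := by rw [hs, hχ]
    rw [orderOf_pow, hord] at h1
    have h2 : (Fintype.card F - 1).gcd s ∣ Fintype.card F - 1 := Nat.gcd_dvd_left _ _
    obtain ⟨c, hc⟩ := h2
    have hg0 : 0 < (Fintype.card F - 1).gcd s := Nat.gcd_pos_of_pos_left _ hq1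
    have h3 : c = m := by
      rw [← h1]
      exact (Nat.div_eq_of_eq_mul_right hg0 hc).symm
    rw [h3] at hc
    apply Nat.eq_of_mul_eq_mul_right hm0
    rw [← hc, hN, mul_comm]
  obtain ⟨t', ht'⟩ : N ∣ s := by
    rw [← hgcd]
    exact Nat.gcd_dvd_right _ _
  have hcop : t'.Coprime m := by
    rw [hN, ht', mul_comm m N, Nat.gcd_mul_left] at hgcd
    have h1 : m.gcd t' = 1 := by
      apply Nat.eq_of_mul_eq_mul_left hN0
      rw [hgcd, mul_one]
    rw [Nat.coprime_comm]
    exact h1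
  have hmN : m * N + 1 = p ^ f := by
    rw [← hN, ← hF]
    omega
  set t : (ZMod m)ˣ := ZMod.unitOfCoprime t' hcop with ht
  have hpow : ∀ x : ZMod m, χ ^ x.val = τ⁻¹ ^ (((t : ZMod m) * x).val * N) := by
    intro x
    have h1 : (t : ZMod m) * x = ((t' * x.val : ℕ) : ZMod m) := by
      rw [ht, ZMod.coe_unitOfCoprime]
      push_cast
      rw [ZMod.natCast_val, ZMod.cast_id]
    rw [h1, ZMod.val_natCast, ← hs, ht', ← pow_mul, pow_inj_mod, hord, hN, mul_assoc, mul_comm N,
      Nat.mul_mod_mul_right, Nat.mul_mod_mul_right, Nat.mod_mod]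
  have hne : ∀ x : ZMod m, x ≠ 0 → χ ^ x.val ≠ 1 := by
    intro x hx h
    have h1 := orderOf_dvd_of_pow_eq_one h
    rw [hχ] at h1
    have h2 : 0 < x.val := Nat.pos_of_ne_zero fun h => hx ((ZMod.val_eq_zero _).1 h)
    have h3 := Nat.le_of_dvd h2 h1
    have h4 := ZMod.val_lt x
    omega
  have hw0 : w ≠ 0 := by
    rintro rfl
    have h1 : v (p : ℂ) = 0 := by
      rw [← hw, zero_pow]
      have := hpp.one_lt
      omega
    rw [map_eq_zero] at h1
    exact hpp.ne_zero (by exact_mod_cast h1)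
  have hG : ∀ x : ZMod m, v (gaussSum (χ ^ x.val) ψ) = w ^ (Nat.digits p (((t : ZMod m) * x).val * N)).sum := by
    intro x
    rw [hpow x]
    apply hst
    have h1 := ZMod.val_lt ((t : ZMod m) * x)
    have h2 : ((t : ZMod m) * x).val * N < m * N := Nat.mul_lt_mul_of_pos_right h1 hN0
    omega
  refine ⟨t, fun x y hx hy hxy => ?_⟩
  have hadd : χ ^ x.val * χ ^ y.val = χ ^ (x + y).val := by
    rw [← pow_add, pow_inj_mod, hχ, ZMod.val_add, Nat.mod_mod]
  have h1 := jacobiSum_mul_nontrivial (χ := χ ^ x.val) (φ := χ ^ y.val) (by rw [hadd]; exact hne _ hxy) ψ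
  rw [hadd] at h1
  have h2 := congrArg v h1
  rw [map_mul, map_mul, hG, hG, hG, ← pow_add,
    digits_add hpp.one_lt hmN (ZMod.val_lt ((t : ZMod m) * x)) (ZMod.val_lt ((t : ZMod m) * y))] at h2
  have h3 : ((t : ZMod m) * (x + y)).val = (((t : ZMod m) * x).val + ((t : ZMod m) * y).val) % m := by
    rw [mul_add, ZMod.val_add]
  rw [h3, pow_add] at h2
  have h4 := mul_left_cancel₀ (pow_ne_zero _ hw0) h2
  rw [h4, pow_mul, hw, carry_eq]

end main

end Pool.Agent.Helper50.SB
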